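import Pool.Agent.Helper876_Robin.LDom

/-!
# The ball is the unique maximiser of the first Robin eigenvalue for moderate parameters

The proof is a calibrated contact set (Alexandrov-Bakelman-Pucci) argument for the logarithm of a
supersolution of a weighted Robin problem on the whole space; the weights are the averages of the
indicator function of the domain and of the surface measure of its boundary over Gaussian
translations, so that no regularity of the boundary is used. See
`Pool/Agent/Helper876_Robin/LMain.lean` for the main estimate,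
`Pool/Agent/Helper876_Robin/Cert3.lean` for the calibration and
`Pool/Agent/Helper876_Robin/LVol.lean` for the volume constrained problem.
-/

set_option autoImplicit false

open MeasureTheory Set Metric Filter Topology
open scoped ENNReal NNReal InnerProductSpace

namespace Pool.Agent.Results.MP_1b807b_an.BallRangeAll

open Pool.Agent.Helper876.Rob

/-- Let `n ≥ 2`, `R > 0` and `α < 0` with `|α| R ≤ max (3 / 2) (9 / 10 * log n)`, or, more
generally, such that the radial first eigenfunction `φ(|x|)` of the ball of radius `R` satisfies
`φ φ'' - φ' ^ 2 < κ φ(0) ^ 2` at `r = R`, where `-κ` is the first eigenvalue of the ball. Then the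
ball of radius `R` is the unique maximiser of the first Robin eigenvalue `λ₁(·; α)` among all the
bounded Lipschitz domains of its volume; and it is a maximiser, unique among the sets which are
the interior of their closure, among all the bounded open sets of its volume whose topological
boundary has finite `(n-1)`-dimensional Hausdorff measure. -/
theorem result (n : ℕ) (hn : 2 ≤ n) (R α : ℝ) (hR : 0 < R) (hα : α < 0)
    (h : -α * R ≤ 3 / 2 ∨ -α * R ≤ 9 / 10 * Real.log n ∨
      ∃ (κ : ℝ) (φ φ' : ℝ → ℝ), IsRadialEigenfunction n R α κ φ φ' ∧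
        φ R * (κ * φ R - ((n : ℝ) - 1) / R * φ' R) - φ' R ^ 2 < κ * φ 0 ^ 2) :
    IsLipschitzDomain (ball (0 : E n) R) ∧
    (∀ Ω : Set (E n), IsLipschitzDomain Ω → volume Ω = volume (ball (0 : E n) R) →
      lam1 Ω α ≤ lam1 (ball (0 : E n) R) α ∧
        (lam1 Ω α = lam1 (ball (0 : E n) R) α → ∃ c : E n, Ω = ball c R)) ∧
    (∀ Ω : Set (E n), IsOpen Ω → Bornology.IsBounded Ω → surf n (frontier Ω) < ⊤ →
      volume Ω = volume (ball (0 : E n) R) →
      lam1 Ω α ≤ lam1 (ball (0 : E n) R) α ∧
        (lam1 Ω α = lam1 (ball (0 : E n) R) α → interior (closure Ω) = Ω →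
          ∃ c : E n, Ω = ball c R)) := by
  refine ⟨ball_lipschitz hn hR, ?_, ?_⟩
  · intro Ω hΩ hvol
    obtain ⟨h1, h2⟩ := vol_final hn hR hα h hΩ.isOpen hΩ.isBounded
      (Pool.Agent.Helper876.LLipG.lip_fin n (by omega) Ω hΩ.isBounded hΩ.graph) hvol
    exact ⟨h1, fun heq => h2 heq
      (Pool.Agent.Helper876.LLipG.lip_int n Ω hΩ.isOpen hΩ.graph)⟩
  · intro Ω hΩ hb hfin hvol
    exact vol_final hn hR hα h hΩ hb hfin hvol

end Pool.Agent.Results.MP_1b807b_an.BallRangeAll
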